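import Pool.Agent.H102R3.FR.Stmts

set_option autoImplicit false

namespace Pool.Agent.H428R3.FRCntT

open Finset Pool.Agent.H102R3.FR

variable {V : Type} [Fintype V] [DecidableEq V] (G : SimpleGraph V) [DecidableRel G.Adj]

/-- the roots -/
def rt (o : V) (B : Finset V) : Finset V :=
  insert o (univ.filter (fun y => y ∉ B ∧ ∃ x ∈ B, G.Adj x y))

/-- the boundary -/
def bdry (o : V) (B Θ : Finset V) : Finset V :=
  ((rt G o B ∪ Θ.biUnion (fun x => G.neighborFinset x)) \ Θ) \ B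

theorem card_rt (o : V) (B : Finset V) : (rt G o B).card ≤ bd G B + 1 := by
  unfold rt
  refine (card_insert_le _ _).trans (Nat.add_le_add_right ?_ 1)
  have h : (univ.filter (fun y => y ∉ B ∧ ∃ x ∈ B, G.Adj x y)) ⊆
      (((Finset.univ : Finset (V × V)).filter
        (fun e => e.1 ∈ B ∧ e.2 ∉ B ∧ G.Adj e.1 e.2)).image Prod.snd) := by
    intro y hy
    simp only [mem_filter, mem_univ, true_and] at hy
    obtain ⟨hy, x, hx, hxy⟩ := hy
    simp only [mem_image, mem_filter, mem_univ, true_and]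
    exact ⟨(x, y), ⟨hx, hy, hxy⟩, rfl⟩
  exact (card_le_card h).trans card_image_le

theorem card_bdry {d : ℕ} (hd : ∀ x, G.degree x ≤ d) (o : V) (B Θ : Finset V) :
    (bdry G o B Θ).card ≤ bd G B + 1 + d * Θ.card := by
  unfold bdry
  refine (card_le_card (sdiff_subset.trans sdiff_subset)).trans ?_
  refine (card_union_le _ _).trans (Nat.add_le_add (card_rt G o B) ?_)
  rw [mul_comm]
  exact card_biUnion_le_card_mul _ _ _ fun x _ => hd x

theorem closure_arg {o : V} {B Θ : Finset V} (ho : o ∈ Θ ∪ B)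
    (hdis : Disjoint Θ B)
    (hpre : (G.induce ((Θ ∪ B : Finset V) : Set V)).Preconnected) (S : Set V)
    (h1 : ∀ u ∈ rt G o B, u ∈ Θ → u ∈ S)
    (h2 : ∀ u ∈ Θ, u ∈ S → ∀ w ∈ Θ, G.Adj u w → w ∈ S) : ∀ v ∈ Θ, v ∈ S := by
  have hnB : ∀ v ∈ Θ, v ∉ B := fun v hv hB => (Finset.disjoint_left.1 hdis) hv hB
  have ho' : o ∈ B ∨ (o ∈ Θ ∧ o ∈ S) := by
    rcases mem_union.1 ho with h | h
    · exact Or.inr ⟨h, h1 o (mem_insert_self _ _) h⟩
    · exact Or.inl h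
  have key : ∀ a b : ((Θ ∪ B : Finset V) : Set V),
      Relation.ReflTransGen (G.induce ((Θ ∪ B : Finset V) : Set V)).Adj a b →
      ((a : V) ∈ B ∨ ((a : V) ∈ Θ ∧ (a : V) ∈ S)) → ((b : V) ∈ B ∨ ((b : V) ∈ Θ ∧ (b : V) ∈ S)) := by
    intro a b hab ha
    induction hab with
    | refl => exact ha
    | tail _ hbc ih =>
      rename_i b c _
      have hadj : G.Adj (b : V) (c : V) := hbc
      have hc := c.2
      rcases mem_union.1 (Finset.mem_coe.1 hc) with h | h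
      · right
        refine ⟨h, ?_⟩
        rcases ih with hb | ⟨hb, hbS⟩
        · apply h1 _ _ h
          unfold rt
          apply mem_insert_of_mem
          simp only [mem_filter, mem_univ, true_and]
          exact ⟨hnB _ h, b, hb, hadj⟩
        · exact h2 _ hb hbS _ h hadj
      · exact Or.inl h
  intro v hv
  have hr := hpre ⟨o, Finset.mem_coe.2 ho⟩ ⟨v, Finset.mem_coe.2 (mem_union_left _ hv)⟩
  rw [SimpleGraph.reachable_iff_reflTransGen] at hr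
  rcases key _ _ hr ho' with h | ⟨_, h⟩
  · exact absurd h (hnB v hv)
  · exact h

theorem subset_of_mem {o : V} {B Θ₁ Θ₂ η : Finset V} (ho : o ∈ Θ₁ ∪ B)
    (hdis : Disjoint Θ₁ B)
    (hpre : (G.induce ((Θ₁ ∪ B : Finset V) : Set V)).Preconnected)
    (h1 : η ∈ Finset.Icc Θ₁ (bdry G o B Θ₁)ᶜ) (h2 : η ∈ Finset.Icc Θ₂ (bdry G o B Θ₂)ᶜ) :
    Θ₁ ⊆ Θ₂ := by
  rw [Finset.mem_Icc] at h1 h2
  have hnB : ∀ v ∈ Θ₁, v ∉ B := fun v hv hB => (Finset.disjoint_left.1 hdis) hv hB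
  have key : ∀ w ∈ Θ₁, (w ∈ rt G o B ∨ ∃ u ∈ Θ₂, G.Adj u w) → w ∈ Θ₂ := by
    intro w hw hor
    by_contra hne
    have h3 : w ∈ bdry G o B Θ₂ := by
      unfold bdry
      rw [mem_sdiff, mem_sdiff, mem_union, mem_biUnion]
      refine ⟨⟨?_, hne⟩, hnB w hw⟩
      rcases hor with h | ⟨u, hu, huw⟩
      · exact Or.inl h
      · exact Or.inr ⟨u, hu, by rw [SimpleGraph.mem_neighborFinset]; exact huw⟩
    have h4 : w ∈ (bdry G o B Θ₂)ᶜ := h2.2 (h1.1 hw)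
    exact (mem_compl.1 h4) h3
  intro v hv
  exact closure_arg G ho hdis hpre (S := (Θ₂ : Set V))
    (fun u hu hu1 => key u hu1 (Or.inl hu))
    (fun u hu huS w hw huw => key w hw (Or.inr ⟨u, huS, huw⟩)) v hv

theorem taskCntT : TaskCntT := by
  intro V _ _ G _ d hd o B F hF
  set n := Fintype.card V with hn
  have hsub : ∀ Θ : Finset V, Θ ⊆ (bdry G o B Θ)ᶜ := by
    intro Θ x hx
    rw [mem_compl]
    unfold bdry
    simp [hx]
  have hcard : ∀ Θ : Finset V, ((Finset.Icc Θ (bdry G o B Θ)ᶜ).card : ℝ) =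
      2 ^ n * ((2 : ℝ)⁻¹) ^ ((bdry G o B Θ).card + Θ.card) := by
    intro Θ
    rw [Finset.card_Icc_finset (hsub Θ), card_compl]
    have h1 := card_le_card (hsub Θ)
    rw [card_compl] at h1
    have h2 : (bdry G o B Θ).card ≤ Fintype.card V := card_le_univ _
    have h3 : n = (n - (bdry G o B Θ).card - Θ.card) + ((bdry G o B Θ).card + Θ.card) := by
      omega
    push_cast
    conv_rhs => rw [h3, pow_add, mul_assoc, ← mul_pow]
    norm_num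
    rfl
  have hdisj : ∀ Θ₁ ∈ F, ∀ Θ₂ ∈ F, Θ₁ ≠ Θ₂ →
      Disjoint (Finset.Icc Θ₁ (bdry G o B Θ₁)ᶜ) (Finset.Icc Θ₂ (bdry G o B Θ₂)ᶜ) := by
    intro Θ₁ h₁ Θ₂ h₂ hne
    rw [Finset.disjoint_left]
    intro η hη1 hη2
    obtain ⟨a1, a2, a3⟩ := hF Θ₁ h₁
    obtain ⟨b1, b2, b3⟩ := hF Θ₂ h₂
    exact hne (Finset.Subset.antisymm (subset_of_mem G a2 a1 a3 hη1 hη2)
      (subset_of_mem G b2 b1 b3 hη2 hη1))
  have htot : (∑ Θ ∈ F, (Finset.Icc Θ (bdry G o B Θ)ᶜ).card) ≤ 2 ^ n := by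
    rw [← Finset.card_biUnion hdisj]
    refine (Finset.card_le_univ _).trans ?_
    rw [Fintype.card_finset]
  have htotR : (∑ Θ ∈ F, (2 : ℝ) ^ n * ((2 : ℝ)⁻¹) ^ ((bdry G o B Θ).card + Θ.card)) ≤ 2 ^ n := by
    have h : ((∑ Θ ∈ F, (Finset.Icc Θ (bdry G o B Θ)ᶜ).card : ℕ) : ℝ) ≤ ((2 ^ n : ℕ) : ℝ) := by
      exact_mod_cast htot
    push_cast at h
    rw [Finset.sum_congr rfl fun Θ _ => hcard Θ] at h
    exact h
  rw [← Finset.mul_sum] at htotR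
  have h2n : (0 : ℝ) < 2 ^ n := by positivity
  have h3 : (∑ Θ ∈ F, ((2 : ℝ)⁻¹) ^ ((bdry G o B Θ).card + Θ.card)) ≤ 1 := by
    by_contra hcon
    push Not at hcon
    nlinarith
  have h4 : ∀ Θ ∈ F, ((2 : ℝ)⁻¹) ^ ((d + 1) * Θ.card) ≤
      2 ^ (bd G B + 1) * ((2 : ℝ)⁻¹) ^ ((bdry G o B Θ).card + Θ.card) := by
    intro Θ _
    have h5 := card_bdry G hd o B Θ
    have h6 : (bdry G o B Θ).card + Θ.card ≤ (bd G B + 1) + (d + 1) * Θ.card := by
      have : (d + 1) * Θ.card = d * Θ.card + Θ.card := by ring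
      omega
    have h7 : ((2 : ℝ)⁻¹) ^ ((bd G B + 1) + (d + 1) * Θ.card) ≤
        ((2 : ℝ)⁻¹) ^ ((bdry G o B Θ).card + Θ.card) :=
      pow_le_pow_of_le_one (by norm_num) (by norm_num) h6
    rw [pow_add] at h7
    have h8 : (0 : ℝ) < 2 ^ (bd G B + 1) := by positivity
    have h9 := mul_le_mul_of_nonneg_left h7 h8.le
    rw [← mul_assoc, ← mul_pow] at h9
    norm_num at h9 ⊢
    exact h9
  calc ∑ Θ ∈ F, ((2 : ℝ)⁻¹) ^ ((d + 1) * Θ.card)
      ≤ ∑ Θ ∈ F, 2 ^ (bd G B + 1) * ((2 : ℝ)⁻¹) ^ ((bdry G o B Θ).card + Θ.card) :=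
        Finset.sum_le_sum h4
    _ = 2 ^ (bd G B + 1) * ∑ Θ ∈ F, ((2 : ℝ)⁻¹) ^ ((bdry G o B Θ).card + Θ.card) :=
        (Finset.mul_sum _ _ _).symm
    _ ≤ 2 ^ (bd G B + 1) * 1 := mul_le_mul_of_nonneg_left h3 (by positivity)
    _ = 2 ^ (bd G B + 1) := mul_one _

end Pool.Agent.H428R3.FRCntT
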