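import Pool.Agent.H777R4.DM.Stmts

set_option autoImplicit false

namespace Pool.Agent.H428R3.DMKL2

open Pool.Agent.H777R4.DM

variable {α : Type}

theorem co_ext {P Q : Al α} (h : ∀ l, co P l = co Q l) : P = Q := by
  apply MonoidAlgebra.coeff_injective
  ext m
  exact h (FreeMonoid.toList m)

@[simp] theorem co_zero (l : List α) : co (0 : Al α) l = 0 := rfl

theorem co_add (P Q : Al α) (l : List α) : co (P + Q) l = co P l + co Q l := rfl

theorem co_smul (c : ℚ) (P : Al α) (l : List α) : co (c • P) l = c * co P l := rfl

theorem co_wd [DecidableEq α] (w l : List α) : co (wd w : Al α) l = if w = l then 1 else 0 := by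
  unfold co wd
  rw [MonoidAlgebra.of_apply, MonoidAlgebra.coeff_single]
  split_ifs with h
  · rw [h, Finsupp.single_eq_same]
  · exact Finsupp.single_eq_of_ne (fun h' => h (FreeMonoid.ofList.injective h').symm)

theorem co_one [DecidableEq α] (l : List α) : co (1 : Al α) l = if [] = l then 1 else 0 := by
  rw [← co_wd]
  rfl

theorem co_mul (P Q : Al α) (l : List α) :
    co (P * Q) l = ∑ n ∈ Finset.range (l.length + 1), co P (l.take n) * co Q (l.drop n) := by
  classical
  unfold co
  rw [MonoidAlgebra.coeff_mul_antidiag P Q (FreeMonoid.ofList l)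
    ((Finset.range (l.length + 1)).image
      (fun n => (FreeMonoid.ofList (l.take n), FreeMonoid.ofList (l.drop n)))) ?_]
  · rw [Finset.sum_image]
    intro n hn m hm h
    simp only [Finset.coe_range, Set.mem_Iio] at hn hm
    have h1 : l.take n = l.take m := (Prod.mk.inj h).1
    have h2 := congrArg List.length h1
    rw [List.length_take, List.length_take] at h2
    omega
  · rintro ⟨u, v⟩
    simp only [Finset.mem_image, Finset.mem_range, Prod.mk.injEq]
    constructor
    · rintro ⟨n, hn, rfl, rfl⟩
      rw [← FreeMonoid.ofList_append, List.take_append_drop]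
    · intro h
      have h' : FreeMonoid.toList u ++ FreeMonoid.toList v = l := by
        rw [← FreeMonoid.toList_mul, h]; rfl
      refine ⟨(FreeMonoid.toList u).length, ?_, ?_, ?_⟩
      · rw [← h', List.length_append]; omega
      · rw [← h', List.take_left]; rfl
      · rw [← h', List.drop_left]; rfl

theorem co_mul_hom {F : Al α} {r : ℕ} (hF : LenHom F r) (a : Al α) (l : List α) :
    co (F * a) l = if r ≤ l.length then co F (l.take r) * co a (l.drop r) else 0 := by
  rw [co_mul]
  split_ifs with h
  · rw [Finset.sum_eq_single r]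
    · intro n hn hnr
      rw [Finset.mem_range] at hn
      by_contra hne
      have h1 := hF _ (left_ne_zero_of_mul hne)
      rw [List.length_take] at h1
      omega
    · intro hr
      rw [Finset.mem_range] at hr
      omega
  · refine Finset.sum_eq_zero fun n hn => ?_
    rw [Finset.mem_range] at hn
    by_contra hne
    have h1 := hF _ (left_ne_zero_of_mul hne)
    rw [List.length_take] at h1
    omega

theorem co_mul_append {F : Al α} {r : ℕ} (hF : LenHom F r) (a : Al α) (w z : List α)
    (hw : w.length = r) : co (F * a) (w ++ z) = co F w * co a z := by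
  rw [co_mul_hom hF, if_pos (by rw [List.length_append]; omega), ← hw, List.take_left,
    List.drop_left]

theorem exists_co_ne {F : Al α} (hF : F ≠ 0) : ∃ w, co F w ≠ 0 := by
  by_contra h
  push Not at h
  exact hF (co_ext fun l => by rw [h l]; rfl)

theorem mul_ne_zero' {F a : Al α} {r : ℕ} (hF : LenHom F r) (hF0 : F ≠ 0) (ha : a ≠ 0) :
    F * a ≠ 0 := by
  obtain ⟨w, hw⟩ := exists_co_ne hF0
  obtain ⟨z, hz⟩ := exists_co_ne ha
  intro h
  have h1 := co_mul_append hF a w z (hF w hw)
  rw [h, co_zero] at h1
  exact mul_ne_zero hw hz h1.symm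

/-- the right quotient by `z`, restricted to words of length `n` -/
theorem exists_quot (b : Al α) (z : List α) (n : ℕ) (c : ℚ) :
    ∃ e : Al α, ∀ w, co e w = if w.length = n then c * co b (w ++ z) else 0 := by
  classical
  have hinj : Set.InjOn (fun w : FreeMonoid α => w * FreeMonoid.ofList z)
      ((fun w : FreeMonoid α => w * FreeMonoid.ofList z) ⁻¹' ↑b.coeff.support) := by
    intro u _ v _ h
    exact mul_right_cancel h
  refine ⟨c • MonoidAlgebra.ofCoeff ((b.coeff.comapDomain (fun w : FreeMonoid α =>
    w * FreeMonoid.ofList z) hinj).filter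
      (fun w => (FreeMonoid.toList w).length = n)), fun w => ?_⟩
  rw [co_smul]
  unfold co
  rw [MonoidAlgebra.coeff_ofCoeff, Finsupp.filter_apply, Finsupp.comapDomain_apply,
    ← FreeMonoid.ofList_append]
  simp only [FreeMonoid.toList_ofList]
  by_cases hw : w.length = n
  · simp [hw]
  · simp [hw]

theorem dich {F G a b : Al α} {r t : ℕ} (hF : LenHom F r) (hG : LenHom G t) (hrt : t ≤ r)
    (ha : a ≠ 0) (h : F * a + G * b = 0) : ∃ e, F = G * e := by
  obtain ⟨z, hz⟩ := exists_co_ne ha
  obtain ⟨e, he⟩ := exists_quot b z (r - t) (-(co a z)⁻¹)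
  refine ⟨e, co_ext fun w => ?_⟩
  rw [co_mul_hom hG]
  by_cases hw : w.length = r
  · rw [if_pos (by omega), he, if_pos (by rw [List.length_drop]; omega)]
    have h1 : co (F * a + G * b) (w ++ z) = 0 := by rw [h]; rfl
    rw [co_add, co_mul_append hF a w z hw, co_mul_hom hG,
      if_pos (by rw [List.length_append]; omega), List.take_append_of_le_length (by omega),
      List.drop_append_of_le_length (by omega)] at h1
    field_simp
    linarith
  · have h0 : co F w = 0 := by
      by_contra hne
      exact hw (hF w hne)
    rw [h0]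
    split_ifs with h2
    · rw [he, if_neg (by rw [List.length_drop]; omega), mul_zero]
    · rfl

/-- left quotient by a letter -/
theorem exists_lq (P : A) (i : Fin 2) : ∃ Q : A, ∀ w, co Q w = co P (i :: w) := by
  have hinj : Set.InjOn (fun w : FreeMonoid (Fin 2) => FreeMonoid.ofList [i] * w)
      ((fun w : FreeMonoid (Fin 2) => FreeMonoid.ofList [i] * w) ⁻¹' ↑P.coeff.support) := by
    intro u _ v _ h
    exact mul_left_cancel h
  refine ⟨MonoidAlgebra.ofCoeff (P.coeff.comapDomain (fun w : FreeMonoid (Fin 2) =>
    FreeMonoid.ofList [i] * w) hinj), fun w => ?_⟩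
  unfold co
  rw [MonoidAlgebra.coeff_ofCoeff, Finsupp.comapDomain_apply, ← FreeMonoid.ofList_append]
  rfl

theorem lenHom_wd (w : List α) : LenHom (wd w : Al α) w.length := by
  classical
  intro v hv
  rw [co_wd] at hv
  by_cases h : w = v
  · rw [h]
  · rw [if_neg h] at hv; exact absurd rfl hv

theorem decomp (P Q0 Q1 : A) (h0 : ∀ w, co Q0 w = co P (0 :: w))
    (h1 : ∀ w, co Q1 w = co P (1 :: w)) :
    P = co P [] • (1 : A) + x 0 * Q0 + x 1 * Q1 := by
  refine co_ext fun l => ?_
  rw [co_add, co_add, co_smul, co_one, x, x, co_mul_hom (lenHom_wd [0]),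
    co_mul_hom (lenHom_wd [1]), co_wd, co_wd]
  cases l with
  | nil => simp
  | cons i l =>
    have hi : i = 0 ∨ i = 1 := by omega
    rcases hi with rfl | rfl
    · simp [h0]
    · simp [h1]

theorem lam_x0 (F G : AY) : lam F G (x 0) = F := by
  unfold lam x wd
  rw [MonoidAlgebra.lift_of]
  rfl

theorem lam_x1 (F G : AY) : lam F G (x 1) = G := by
  unfold lam x wd
  rw [MonoidAlgebra.lift_of]
  rfl

theorem kl2 : TaskKL2 := by
  intro F G r t hr ht hF hG hF0 hG0 hFG hGF
  rw [injective_iff_map_eq_zero]
  have key : ∀ N : ℕ, ∀ P : A, (∀ l, co P l ≠ 0 → l.length < N) → lam F G P = 0 → P = 0 := by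
    intro N
    induction N with
    | zero =>
      intro P hP _
      refine co_ext fun l => ?_
      by_contra hne
      exact absurd (hP l hne) (by omega)
    | succ N ih =>
      intro P hP hlam
      obtain ⟨Q0, h0⟩ := exists_lq P 0
      obtain ⟨Q1, h1⟩ := exists_lq P 1
      have hdec := decomp P Q0 Q1 h0 h1
      have e1 : lam F G P = co P [] • (1 : AY) + F * lam F G Q0 + G * lam F G Q1 := by
        conv_lhs => rw [hdec]
        rw [map_add, map_add, map_smul, map_one, map_mul, map_mul, lam_x0, lam_x1]
      have hc : co P [] = 0 := by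
        have h2 : co (lam F G P) [] = 0 := by rw [hlam]; rfl
        rw [e1, co_add, co_add, co_smul, co_one, co_mul_hom hF, co_mul_hom hG, if_pos rfl,
          if_neg (by simp; omega), if_neg (by simp; omega)] at h2
        simpa using h2
      have e2 : F * lam F G Q0 + G * lam F G Q1 = 0 := by
        rw [hlam, hc, zero_smul, zero_add] at e1
        exact e1.symm
      have hQ0 : lam F G Q0 = 0 := by
        by_contra hne
        rcases le_total t r with htr | hrt
        · exact hFG (dich hF hG htr hne e2)
        · have hne1 : lam F G Q1 ≠ 0 := by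
            intro h3
            rw [h3, mul_zero, add_zero] at e2
            exact mul_ne_zero' hF hF0 hne e2
          exact hGF (dich hG hF hrt hne1 (by rw [add_comm]; exact e2))
      have hQ1 : lam F G Q1 = 0 := by
        by_contra hne
        rw [hQ0, mul_zero, zero_add] at e2
        exact mul_ne_zero' hG hG0 hne e2
      have z0 := ih Q0 (fun l hl => by
        rw [h0] at hl
        have := hP _ hl
        simpa using this) hQ0
      have z1 := ih Q1 (fun l hl => by
        rw [h1] at hl
        have := hP _ hl
        simpa using this) hQ1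
      rw [hdec, z0, z1, hc]
      simp
  intro P hP
  refine key ((P.coeff.support.sup fun m => (FreeMonoid.toList m).length) + 1) P
    (fun l hl => ?_) hP
  have hmem : FreeMonoid.ofList l ∈ P.coeff.support := Finsupp.mem_support_iff.2 hl
  have := Finset.le_sup (f := fun m : FreeMonoid (Fin 2) => (FreeMonoid.toList m).length) hmem
  simp only [FreeMonoid.toList_ofList] at this
  omega

end Pool.Agent.H428R3.DMKL2
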