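import Pool.Agent.H854R3.CR.Stmts
import Pool.Agent.H854R3.NE.FinRed

set_option autoImplicit false

namespace Pool.Agent.H428R3.CRLeft

open Pool.Agent.H854R3.NE Pool.Agent.H854R3.CR

theorem finite_red' {A : Type} [NonUnitalRing A] (hg : FGen A) {K : Type} [Field K]
    {s : ℕ} (Θ : A →ₙ+* Matrix (Fin s) (Fin s) K) (α : A) (hα : ∀ k, npw (Θ α) k ≠ 0) :
    ∃ (L : Type) (_ : Field L) (_ : Finite L) (Θ' : A →ₙ+* Matrix (Fin s) (Fin s) L),
      ∀ k, npw (Θ' α) k ≠ 0 := by
  classical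
  obtain ⟨S₀, hS₀, hcl⟩ := hg
  let gens : Set K := {k | ∃ a ∈ S₀, ∃ i j, k = Θ a i j}
  have hgfin : gens.Finite := by
    have : gens ⊆ ⋃ a ∈ S₀, (Set.range fun ij : Fin s × Fin s => Θ a ij.1 ij.2) := by
      rintro k ⟨a, ha, i, j, rfl⟩
      exact Set.mem_biUnion ha ⟨(i, j), rfl⟩
    exact (hS₀.biUnion fun a _ => Set.finite_range _).subset this
  let S := Algebra.adjoin ℤ gens
  have hft : Algebra.FiniteType ℤ S := by
    rw [← Subalgebra.fg_iff_finiteType]
    exact Subalgebra.fg_def.2 ⟨gens, hgfin, rfl⟩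
  have hent : ∀ a i j, Θ a i j ∈ S := by
    intro a
    have ha : a ∈ NonUnitalSubring.closure S₀ := by rw [hcl]; trivial
    induction ha using NonUnitalSubring.closure_induction with
    | mem a ha => intro i j; exact Algebra.subset_adjoin ⟨a, ha, i, j, rfl⟩
    | zero => intro i j; rw [map_zero]; exact zero_mem _
    | add a b _ _ ha hb => intro i j; rw [map_add]; exact add_mem (ha i j) (hb i j)
    | neg a _ ha => intro i j; rw [map_neg]; exact neg_mem (ha i j)
    | mul a b _ _ ha hb =>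
      intro i j
      rw [map_mul, Matrix.mul_apply]
      exact sum_mem fun k _ => mul_mem (ha i k) (hb k j)
  let Θ₀ : A →ₙ+* Matrix (Fin s) (Fin s) S :=
    { toFun := fun a => Matrix.of fun i j => ⟨Θ a i j, hent a i j⟩
      map_mul' := by
        intro a b
        ext i j
        have h1 : Θ (a * b) i j = ∑ k, Θ a i k * Θ b k j := by rw [map_mul, Matrix.mul_apply]
        rw [Matrix.mul_apply]
        simp only [Matrix.of_apply, AddSubmonoidClass.coe_finsetSum, MulMemClass.coe_mul]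
        exact h1
      map_zero' := by
        ext i j
        simp
      map_add' := by
        intro a b
        ext i j
        simp }
  have hΘ₀ : (S.val : S →+* K).mapMatrix (Θ₀ α) = Θ α := by
    ext i j
    rfl
  have hne : npw (Θ₀ α) s ≠ 0 := by
    intro h
    apply hα s
    rw [npw_eq_pow] at h ⊢
    rw [← hΘ₀, ← map_pow, h, map_zero]
  obtain ⟨i, j, hij⟩ : ∃ i j, npw (Θ₀ α) s i j ≠ 0 := by
    by_contra hcon
    push Not at hcon
    apply hne
    ext i j
    rw [hcon i j]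
    rfl
  obtain ⟨L, iL, hL, f, hf⟩ := exists_residue S _ hij
  let Θ' : A →ₙ+* Matrix (Fin s) (Fin s) L :=
    (f.mapMatrix.toNonUnitalRingHom).comp Θ₀
  refine ⟨L, iL, hL, Θ', ?_⟩
  intro k hk
  rw [npw_eq_pow] at hk
  have h1 := matrix_nilp hk
  have h2 : (Θ' α) ^ (s + 1) = 0 := by rw [pow_succ, h1, zero_mul]
  have h3 : f.mapMatrix (npw (Θ₀ α) s) = 0 := by
    rw [npw_eq_pow, map_pow]
    exact h2
  have h4 := congrFun (congrFun h3 i) j
  exact hf h4

/-- an idempotent power in a finite monoid -/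
theorem exists_idem {M : Type} [Monoid M] [Finite M] (x : M) :
    ∃ N : ℕ, x ^ (N + 1) * x ^ (N + 1) = x ^ (N + 1) := by
  obtain ⟨i, j, hij, h⟩ : ∃ i j : ℕ, i < j ∧ x ^ (i + 1) = x ^ (j + 1) := by
    obtain ⟨i, j, hne, h⟩ := Finite.exists_ne_map_eq_of_infinite (fun n : ℕ => x ^ (n + 1))
    rcases lt_or_gt_of_ne hne with h1 | h1
    · exact ⟨i, j, h1, h⟩
    · exact ⟨j, i, h1, h.symm⟩
  obtain ⟨p, rfl⟩ : ∃ p, j = i + (p + 1) := ⟨j - i - 1, by omega⟩
  have h1 : ∀ m, x ^ (i + 1 + m + (p + 1)) = x ^ (i + 1 + m) := by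
    intro m
    have e1 : i + 1 + m + (p + 1) = (i + (p + 1) + 1) + m := by ring
    rw [e1, pow_add, ← h, ← pow_add]
  have h2 : ∀ t m, x ^ (i + 1 + m + t * (p + 1)) = x ^ (i + 1 + m) := by
    intro t
    induction t with
    | zero => intro m; simp
    | succ t ih =>
      intro m
      have e1 : i + 1 + m + (t + 1) * (p + 1) = i + 1 + (m + t * (p + 1)) + (p + 1) := by ring
      rw [e1, h1, ← ih m]
      congr 1
      ring
  refine ⟨(i + 1) * (p + 1) - 1, ?_⟩
  have e0 : (i + 1) * (p + 1) - 1 + 1 = (i + 1) * (p + 1) :=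
    Nat.sub_add_cancel (Nat.mul_pos (Nat.succ_pos _) (Nat.succ_pos _))
  rw [e0, ← pow_add]
  have h3 := h2 (i + 1) ((i + 1) * p)
  have e1 : i + 1 + (i + 1) * p = (i + 1) * (p + 1) := by ring
  rwa [e1] at h3

theorem left : TaskLeft := by
  intro R _ hR K _ s Θ β hβ
  obtain ⟨F, iF, hF, Θ', hΘ'⟩ := finite_red' hR Θ β hβ
  have hfin : Finite (Matrix (Fin s) (Fin s) F) := by
    unfold Matrix
    infer_instance
  obtain ⟨N, hN⟩ := exists_idem (Θ' β)
  set ε := (Θ' β) ^ (N + 1) with hε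
  have hε0 : ε ≠ 0 := by
    have := hΘ' N
    rwa [npw_eq_pow] at this
  have hb : Θ' (npw β N) = ε := by rw [npw_map, npw_eq_pow]
  let f : R →+ Matrix (Fin s) (Fin s) F :=
    AddMonoidHom.mk' (fun x => Θ' x * ε) (fun a b => by
      change Θ' (a + b) * ε = Θ' a * ε + Θ' b * ε
      rw [map_add, add_mul])
  have hf : ∀ x, f x = Θ' x * ε := fun x => rfl
  have hmem : ∀ x, x ∈ f.ker ↔ Θ' x * ε = 0 := fun x => by rw [AddMonoidHom.mem_ker, hf]
  have hfi : f.ker.FiniteIndex := AddSubgroup.finiteIndex_ker f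
  let S : Set (AddSubgroup R) := {L | LeftId L ∧ f.ker ≤ L ∧ npw β N ∉ L}
  have hSne : S.Nonempty := by
    refine ⟨f.ker, ?_, le_rfl, ?_⟩
    · intro r x hx
      rw [hmem] at hx ⊢
      rw [map_mul, mul_assoc, hx, mul_zero]
    · rw [hmem, hb, hN]
      exact hε0
  obtain ⟨L, ⟨hL1, hL2, hL3⟩, hmin⟩ :=
    WellFounded.has_min (InvImage.wf (fun L : AddSubgroup R => L.index) wellFounded_lt) S hSne
  have hLfi : L.FiniteIndex := AddSubgroup.finiteIndex_of_le hL2
  refine ⟨L, ⟨hL1, ?_, hLfi, ?_⟩, ?_⟩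
  · intro h
    apply hL3
    rw [h]; trivial
  · intro L' hL' hle
    by_cases hbL : npw β N ∈ L'
    · right
      rw [AddSubgroup.eq_top_iff']
      intro r
      have h1 : r - r * npw β N ∈ L' := by
        apply hle
        apply hL2
        rw [hmem, map_sub, map_mul, hb, sub_mul, mul_assoc, hN, sub_self]
      have h2 := L'.add_mem h1 (hL' r _ hbL)
      rwa [sub_add_cancel] at h2
    · left
      by_contra hne
      have hlt : L < L' := lt_of_le_of_ne hle (Ne.symm hne)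
      exact hmin L' ⟨hL', hL2.trans hle, hbL⟩ (AddSubgroup.index_strictAnti hlt)
  · intro hβL
    apply hL3
    cases N with
    | zero => exact hβL
    | succ n => exact hL1 (npw β n) β hβL

end Pool.Agent.H428R3.CRLeft
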