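import Pool.Agent.H242R3.ES.Stmts

set_option autoImplicit false
set_option maxHeartbeats 1000000

open Finset
open scoped Classical

namespace Pool.Agent.H428R3.ESFin

open Pool.Agent.H242R3.ES

section scale
variable {ι κ E : Type} [AddCommGroup E] [Module ℝ E]

theorem face_scale (h : κ → E) (e : ι ≃ κ) (c : ι → ℝ) (hc : ∀ i, 0 < c i) (S : Set ι) :
    Face (fun i => c i • h (e i)) S ↔ Face h (e '' S) := by
  unfold Face
  constructor
  · rintro ⟨l, h1, h2⟩
    refine ⟨l, fun k => ?_, fun k => ?_⟩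
    · have := h1 (e.symm k)
      rw [map_smul, smul_eq_mul, e.apply_symm_apply] at this
      exact nonneg_of_mul_nonneg_right this (hc _)
    · have := h2 (e.symm k)
      rw [map_smul, smul_eq_mul, e.apply_symm_apply, mul_eq_zero] at this
      rw [Set.mem_image]
      constructor
      · rintro ⟨i, hi, rfl⟩
        have h3 := (h2 i).1 hi
        rw [map_smul, smul_eq_mul, mul_eq_zero] at h3
        exact h3.resolve_left (hc i).ne'
      · intro hk
        exact ⟨e.symm k, this.2 (Or.inr hk), e.apply_symm_apply k⟩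
  · rintro ⟨l, h1, h2⟩
    refine ⟨l, fun i => ?_, fun i => ?_⟩
    · rw [map_smul, smul_eq_mul]
      exact mul_nonneg (hc i).le (h1 _)
    · rw [map_smul, smul_eq_mul, mul_eq_zero]
      constructor
      · intro hi
        exact Or.inr ((h2 (e i)).1 ⟨i, hi, rfl⟩)
      · intro hi
        obtain ⟨j, hj, hji⟩ := (h2 (e i)).2 (hi.resolve_left (hc i).ne')
        rwa [← e.injective hji]

theorem sc_scale [Fintype ι] [Fintype κ] (h : κ → E) (e : ι ≃ κ) (c : ι → ℝ)
    (hc : ∀ i, 0 < c i) (hsc : SC h) : SC (fun i => c i • h (e i)) := by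
  refine ⟨fun i => ?_, ?_, fun S hS hne => ?_⟩
  · rw [face_scale h e c hc, Set.image_singleton]
    exact hsc.vert _
  · rw [eq_top_iff, ← hsc.span, Submodule.span_le]
    rintro _ ⟨k, rfl⟩
    have h1 : h k = (c (e.symm k))⁻¹ • (c (e.symm k) • h (e (e.symm k))) := by
      rw [smul_smul, inv_mul_cancel₀ (hc _).ne', one_smul, e.apply_symm_apply]
    rw [h1]
    exact Submodule.smul_mem _ _ (Submodule.subset_span ⟨e.symm k, rfl⟩)
  · rw [face_scale h e c hc] at hS
    have hne' : e '' S ≠ Set.univ := by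
      intro h1
      apply hne
      rw [Set.eq_univ_iff_forall]
      intro i
      have : e i ∈ e '' S := by rw [h1]; trivial
      obtain ⟨j, hj, hji⟩ := this
      rwa [← e.injective hji]
    have h1 := hsc.simp _ hS hne'
    have h2 : LinearIndependent ℝ (fun i : S => h (e i)) := by
      have hinj : Function.Injective (fun i : S => (⟨e i, ⟨i, i.2, rfl⟩⟩ : (e '' S : Set κ))) := by
        intro i j hij
        exact Subtype.ext (e.injective (congrArg Subtype.val hij))
      exact h1.comp _ hinj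
    have h3 := h2.units_smul (fun i : S => Units.mk0 (c i) (hc i).ne')
    exact h3

end scale

theorem B_hom {D : ℕ} (a : Fin D → ℝ) : B (hom a) (hom a) = ∑ i, a i ^ 2 - 1 := by
  unfold B hom
  simp [pow_two]

theorem B_smul {D : ℕ} (c c' : ℝ) (x y : LV D) : B (c • x) (c' • y) = c * c' * B x y := by
  unfold B
  simp only [Pi.smul_apply, smul_eq_mul]
  rw [mul_sub, Finset.mul_sum]
  congr 1
  · refine Finset.sum_congr rfl fun i _ => ?_
    ring
  · ring

/-- the time coordinate -/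
noncomputable def tm {D : ℕ} : LV D →ₗ[ℝ] ℝ := LinearMap.proj none

/-- normalised vectors -/
noncomputable def nf {D : ℕ} (a : Fin D → ℝ) : ℝ := (Real.sqrt (∑ i, a i ^ 2 - 1))⁻¹

theorem sp_of {D : ℕ} {ι : Type} [Fintype ι] (a : ι → Fin D → ℝ)
    (hn : ∀ i, 1 < ∑ j, a i j ^ 2)
    (hsc : SC (fun i => nf (a i) • (hom (a i) : LV D)))
    (he : ∀ i j, i ≠ j → Face (fun i => nf (a i) • (hom (a i) : LV D)) {i, j} →
      B (hom (a i)) (hom (a j)) =
        -(Real.sqrt (∑ k, a i k ^ 2 - 1) * Real.sqrt (∑ k, a j k ^ 2 - 1))) :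
    SP D (fun i => nf (a i) • (hom (a i) : LV D)) := by
  have hs : ∀ i, 0 < Real.sqrt (∑ k, a i k ^ 2 - 1) := fun i =>
    Real.sqrt_pos.2 (by linarith [hn i])
  refine ⟨fun i => ?_, fun i => ?_, hsc.vert, fun i j hij hF => ?_, hsc.span, hsc.simp⟩
  · rw [B_smul, B_hom]
    unfold nf
    have h1 := Real.mul_self_sqrt (show 0 ≤ ∑ k, a i k ^ 2 - 1 by linarith [hn i])
    have h2 := hs i
    conv_lhs => rw [← h1]
    rw [Real.sqrt_mul_self h2.le]
    field_simp
  · unfold nf hom
    simp only [Pi.smul_apply, Option.elim_none, smul_eq_mul, mul_one]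
    exact inv_pos.2 (hs i)
  · rw [B_smul, he i j hij hF]
    unfold nf
    have h1 := hs i
    have h2 := hs j
    field_simp

theorem t : TaskFin := by
  intro hMain hC1 hC2 hF1 hF2a hF2b hF3 d hd V W hVi hWi hTV hTW hSV ⟨f, hf, hface⟩
  have hD2 : 2 ≤ d + 1 := by omega
  obtain ⟨iV, hscV⟩ := hF2a hF1 (d+1) hD2 V hVi hSV
  -- images and preimages of sets of vertices
  let pre : Set (Fin (d+1) → ℝ) → Set (Fin (d+1) → ℝ) := fun S' => {x | x ∈ EP V ∧ f x ∈ S'}
  have hpre_sub : ∀ S', pre S' ⊆ EP V := fun S' x hx => hx.1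
  have himg : ∀ S' ⊆ EP W, f '' (pre S') = S' := by
    intro S' hS'
    ext y
    constructor
    · rintro ⟨x, hx, rfl⟩; exact hx.2
    · intro hy
      obtain ⟨x, hx, rfl⟩ := hf.surjOn (hS' hy)
      exact ⟨x, ⟨hx, hy⟩, rfl⟩
  -- Simp W
  have hSW : Simp W := by
    intro S' hS' hne hexp
    rcases S'.eq_empty_or_nonempty with he | hne'
    · subst he
      exact affineIndependent_of_subsingleton ℝ _
    have hSne : (pre S').Nonempty := by
      have : (f '' (pre S')).Nonempty := by rw [himg S' hS']; exact hne'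
      exact Set.image_nonempty.1 this
    have hexpV : IsExposed ℝ (convexHull ℝ (V : Set (Fin (d+1) → ℝ))) (convexHull ℝ (pre S')) := by
      rw [hface _ (hpre_sub S'), himg S' hS']
      exact hexp
    have hFV := (hF1 (d+1) V (pre S') (hpre_sub S') hSne).1 hexpV
    have hneU : {i : EP V | (i : Fin (d+1) → ℝ) ∈ pre S'} ≠ Set.univ := by
      intro h
      apply hne
      refine Set.Subset.antisymm hS' fun y hy => ?_
      obtain ⟨x, hx, rfl⟩ := hf.surjOn hy
      have : (⟨x, hx⟩ : EP V) ∈ {i : EP V | (i : Fin (d+1) → ℝ) ∈ pre S'} := by rw [h]; trivial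
      exact this.2
    have hsub : ∀ I' ⊆ S', I'.Nonempty →
        Face (fun i : EP W => (hom (i : Fin (d+1) → ℝ) : LV (d+1)))
          {i | (i : Fin (d+1) → ℝ) ∈ I'} := by
      intro I' hI' hI'ne
      have hI'W : I' ⊆ EP W := hI'.trans hS'
      have hIne : (pre I').Nonempty := by
        have : (f '' (pre I')).Nonempty := by rw [himg I' hI'W]; exact hI'ne
        exact Set.image_nonempty.1 this
      have h1 := hC1 _ _ _ hscV _ {i : EP V | (i : Fin (d+1) → ℝ) ∈ pre I'} hFV hneU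
        (fun i hi => ⟨hi.1, hI' hi.2⟩)
      have h2 := (hF1 (d+1) V (pre I') (hpre_sub I') hIne).2 h1
      rw [hface _ (hpre_sub I'), himg I' hI'W] at h2
      exact (hF1 (d+1) W I' hI'W hI'ne).1 h2
    rw [affineIndependent_iff]
    intro s w hw0 hw1
    by_contra hcon
    push Not at hcon
    obtain ⟨e0, he0, he0w⟩ := hcon
    obtain ⟨e1, he1, he1w⟩ := Finset.exists_pos_of_sum_zero_of_exists_nonzero w hw0 ⟨e0, he0, he0w⟩
    let I' : Set (Fin (d+1) → ℝ) := {x | ∃ e ∈ s, 0 < w e ∧ x = (e : Fin (d+1) → ℝ)}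
    have hI'S : I' ⊆ S' := by
      rintro x ⟨e, _, _, rfl⟩
      exact e.2
    obtain ⟨l, hl0, hl1⟩ := hsub I' hI'S ⟨_, e1, he1, he1w, rfl⟩
    have hsum : ∑ e ∈ s, w e • (hom (e : Fin (d+1) → ℝ) : LV (d+1)) = 0 := by
      funext o
      rw [Finset.sum_apply]
      cases o with
      | none =>
        simp only [hom, Pi.smul_apply, Option.elim_none, smul_eq_mul, mul_one, Pi.zero_apply]
        exact hw0
      | some j =>
        have := congrFun hw1 j
        rw [Finset.sum_apply] at this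
        exact this
    have hsum2 : ∑ e ∈ s, w e * l (hom (e : Fin (d+1) → ℝ)) = 0 := by
      have := congrArg l hsum
      rw [map_sum, map_zero] at this
      rw [← this]
      refine Finset.sum_congr rfl fun e _ => ?_
      rw [map_smul, smul_eq_mul]
    have hterm : ∀ e ∈ s, w e * l (hom (e : Fin (d+1) → ℝ)) ≤ 0 ∧
        (w e < 0 → w e * l (hom (e : Fin (d+1) → ℝ)) < 0) := by
      intro e he
      have hk := hl1 ⟨(e : Fin (d+1) → ℝ), hS' e.2⟩
      have hk0 := hl0 ⟨(e : Fin (d+1) → ℝ), hS' e.2⟩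
      rcases lt_trichotomy (w e) 0 with h | h | h
      · have hnot : ¬ ((⟨(e : Fin (d+1) → ℝ), hS' e.2⟩ : EP W) ∈
            {i : EP W | (i : Fin (d+1) → ℝ) ∈ I'}) := by
          rintro ⟨e', _, hw', hee⟩
          have : e = e' := Subtype.ext hee
          rw [← this] at hw'
          linarith
        have hne0 : l (hom (e : Fin (d+1) → ℝ)) ≠ 0 := fun h0 => hnot (hk.2 h0)
        have hpos : 0 < l (hom (e : Fin (d+1) → ℝ)) := lt_of_le_of_ne hk0 (Ne.symm hne0)
        have := mul_neg_of_neg_of_pos h hpos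
        exact ⟨this.le, fun _ => this⟩
      · rw [h, zero_mul]
        exact ⟨le_rfl, fun h' => absurd h' (lt_irrefl _)⟩
      · have h0 : l (hom (e : Fin (d+1) → ℝ)) = 0 := hk.1 ⟨e, he, h, rfl⟩
        rw [h0, mul_zero]
        exact ⟨le_rfl, fun h' => absurd h (not_lt.2 h'.le)⟩
    have hzero := (Finset.sum_eq_zero_iff_of_nonpos (fun e he => (hterm e he).1)).1 hsum2
    have hnn : ∀ e ∈ s, 0 ≤ w e := by
      intro e he
      by_contra hneg
      push Not at hneg
      exact absurd (hzero e he) ((hterm e he).2 hneg).ne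
    have := (Finset.sum_eq_zero_iff_of_nonneg hnn).1 hw0 e0 he0
    exact he0w this
  obtain ⟨iW, hscW⟩ := hF2a hF1 (d+1) hD2 W hWi hSW
  obtain ⟨hnV, heV⟩ := hF2b hF1 hC2 (d+1) hD2 V hVi hTV hscV
  obtain ⟨hnW, heW⟩ := hF2b hF1 hC2 (d+1) hD2 W hWi hTW hscW
  let e : EP V ≃ EP W := Set.BijOn.equiv f hf
  have he : ∀ i : EP V, ((e i : EP W) : Fin (d+1) → ℝ) = f i := fun i => rfl
  have hnfV : ∀ i : EP V, 0 < nf (i : Fin (d+1) → ℝ) := fun i =>
    inv_pos.2 (Real.sqrt_pos.2 (by linarith [hnV _ i.2]))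
  have hnfW : ∀ i : EP V, 0 < nf ((e i : EP W) : Fin (d+1) → ℝ) := fun i =>
    inv_pos.2 (Real.sqrt_pos.2 (by linarith [hnW _ (e i).2]))
  have hSPV : SP (d+1) (fun i : EP V => nf (i : Fin (d+1) → ℝ) •
      (hom (i : Fin (d+1) → ℝ) : LV (d+1))) := by
    refine sp_of (fun i : EP V => (i : Fin (d+1) → ℝ)) (fun i => hnV _ i.2) ?_ ?_
    · exact sc_scale (fun i : EP V => (hom (i : Fin (d+1) → ℝ) : LV (d+1))) (Equiv.refl _) _ hnfV
        hscV
    · intro i j hij hF
      have h1 := (face_scale (fun i : EP V => (hom (i : Fin (d+1) → ℝ) : LV (d+1)))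
        (Equiv.refl _) _ hnfV {i, j}).1 hF
      have h2 : (Equiv.refl (EP V)) '' {i, j} = {i, j} := by simp
      rw [h2] at h1
      exact heV i j hij h1
  have hSPW : SP (d+1) (fun i : EP V => nf ((e i : EP W) : Fin (d+1) → ℝ) •
      (hom ((e i : EP W) : Fin (d+1) → ℝ) : LV (d+1))) := by
    refine sp_of (fun i : EP V => ((e i : EP W) : Fin (d+1) → ℝ)) (fun i => hnW _ (e i).2) ?_ ?_
    · exact sc_scale (fun i : EP W => (hom (i : Fin (d+1) → ℝ) : LV (d+1))) e _ hnfW hscW
    · intro i j hij hF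
      have h1 := (face_scale (fun i : EP W => (hom (i : Fin (d+1) → ℝ) : LV (d+1)))
        e _ hnfW {i, j}).1 hF
      rw [Set.image_pair] at h1
      exact heW (e i) (e j) (fun h => hij (e.injective h)) h1
  have hfaces : ∀ S : Set (EP V), Face (fun i : EP V => nf (i : Fin (d+1) → ℝ) •
      (hom (i : Fin (d+1) → ℝ) : LV (d+1))) S ↔
      Face (fun i : EP V => nf ((e i : EP W) : Fin (d+1) → ℝ) •
        (hom ((e i : EP W) : Fin (d+1) → ℝ) : LV (d+1))) S := by
    intro S
    have h1 := face_scale (fun i : EP V => (hom (i : Fin (d+1) → ℝ) : LV (d+1)))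
      (Equiv.refl _) _ hnfV S
    have h2 := face_scale (fun i : EP W => (hom (i : Fin (d+1) → ℝ) : LV (d+1))) e _ hnfW S
    have h3 : (Equiv.refl (EP V)) '' S = S := by simp
    rw [h3] at h1
    refine h1.trans (Iff.trans ?_ h2.symm)
    rcases S.eq_empty_or_nonempty with hS | hS
    · subst hS
      rw [Set.image_empty]
      constructor
      · intro _
        exact ⟨tm, fun i => by simp [tm, hom], fun i => by simp [tm, hom]⟩
      · intro _
        exact ⟨tm, fun i => by simp [tm, hom], fun i => by simp [tm, hom]⟩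
    · let S₀ : Set (Fin (d+1) → ℝ) := Subtype.val '' S
      have hS₀ : S₀ ⊆ EP V := by rintro _ ⟨i, _, rfl⟩; exact i.2
      have hS₀ne : S₀.Nonempty := hS.image _
      have a1 := hF1 (d+1) V S₀ hS₀ hS₀ne
      have e1 : {i : EP V | (i : Fin (d+1) → ℝ) ∈ S₀} = S := by
        ext i
        constructor
        · rintro ⟨j, hj, hji⟩
          rwa [← Subtype.ext hji]
        · intro hi
          exact ⟨i, hi, rfl⟩
      rw [e1] at a1
      have a2 := hface S₀ hS₀
      have hfS : f '' S₀ ⊆ EP W := by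
        rintro _ ⟨x, hx, rfl⟩
        exact hf.mapsTo (hS₀ hx)
      have a3 := hF1 (d+1) W (f '' S₀) hfS (hS₀ne.image _)
      have e2 : {i : EP W | (i : Fin (d+1) → ℝ) ∈ f '' S₀} = e '' S := by
        ext k
        constructor
        · rintro ⟨x, ⟨i, hi, rfl⟩, hx⟩
          exact ⟨i, hi, Subtype.ext ((he i).trans hx)⟩
        · rintro ⟨i, hi, rfl⟩
          exact ⟨_, ⟨i, hi, rfl⟩, (he i).symm⟩
      rw [e2] at a3
      exact a1.symm.trans (a2.trans a3)
  obtain ⟨T, hT, hTi⟩ := hMain (d+1) (by omega) (EP V) _ _ hSPV hSPW hfaces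
  have hVne : V.Nonempty := by
    by_contra h
    rw [Finset.not_nonempty_iff_eq_empty] at h
    subst h
    simp at hVi
  refine hF3 (d+1) V W f hVne hf T hT fun a ha => ?_
  have h1 := hTi ⟨a, ha⟩
  have h2 := hnfV ⟨a, ha⟩
  have h3 := hnfW ⟨a, ha⟩
  simp only at h1 h2
  refine ⟨(nf a)⁻¹ * nf (f a), mul_pos (inv_pos.2 h2) h3, ?_⟩
  have h4 : (hom a : LV (d+1)) = (nf a)⁻¹ • (nf a • (hom a : LV (d+1))) := by
    rw [smul_smul, inv_mul_cancel₀ h2.ne', one_smul]
  rw [h4, map_smul, h1, mul_smul]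
  rfl

end Pool.Agent.H428R3.ESFin
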