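import Pool.Agent.H753R3.LM.Stmts
import Pool.Agent.Helper472.Lat_PW

set_option autoImplicit false

namespace Pool.Agent.H428R3.LMT6

open Matrix
open scoped ComplexOrder

section lin
variable {K : Type} [CommGroup K] {ι : Type} [Fintype ι] [DecidableEq ι]

theorem unit_mul (U : Matrix.unitaryGroup ι ℂ) : (U : Matrix ι ι ℂ)ᴴ * (U : Matrix ι ι ℂ) = 1 :=
  Matrix.UnitaryGroup.star_mul_self U

theorem fix_range (U : Matrix.unitaryGroup ι ℂ) (u w : ι → ℂ)
    (hw : w = (U : Matrix ι ι ℂ) *ᵥ u - u) (hf : (U : Matrix ι ι ℂ) *ᵥ w = w) : w = 0 := by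
  have h1 : (U : Matrix ι ι ℂ)ᴴ *ᵥ w = w := by
    conv_lhs => rw [← hf]
    rw [Matrix.mulVec_mulVec, unit_mul, Matrix.one_mulVec]
  have h2 : star w ᵥ* (U : Matrix ι ι ℂ) = star w := by
    have := congrArg star h1
    rw [Matrix.star_mulVec, Matrix.conjTranspose_conjTranspose] at this
    exact this
  rw [← dotProduct_star_self_eq_zero]
  have h3 : star w ⬝ᵥ w = star w ⬝ᵥ ((U : Matrix ι ι ℂ) *ᵥ u - u) := by rw [← hw]
  rw [h3, dotProduct_sub, Matrix.dotProduct_mulVec, h2, sub_self]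

/-- common eigenvectors -/
theorem common (ρ : K →* Matrix.unitaryGroup ι ℂ) (k : K) (hk : ρ k ≠ 1) :
    ∃ v : ι → ℂ, v ≠ 0 ∧ (∀ x, ∃ c : ℂ, (ρ x : Matrix ι ι ℂ) *ᵥ v = c • v) ∧
      (ρ k : Matrix ι ι ℂ) *ᵥ v ≠ v := by
  classical
  have hcomm : ∀ x y, (ρ x : Matrix ι ι ℂ) * (ρ y : Matrix ι ι ℂ) = ρ y * ρ x := by
    intro x y
    have : ρ x * ρ y = ρ y * ρ x := by rw [← map_mul, ← map_mul, mul_comm]
    exact congrArg Subtype.val this
  let S : Set (Submodule ℂ (ι → ℂ)) := {W | W ≠ ⊥ ∧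
    (∀ x, ∀ v ∈ W, (ρ x : Matrix ι ι ℂ) *ᵥ v ∈ W) ∧
    ∀ v ∈ W, (ρ k : Matrix ι ι ℂ) *ᵥ v = v → v = 0}
  have hne : S.Nonempty := by
    refine ⟨LinearMap.range (Matrix.toLin' ((ρ k : Matrix ι ι ℂ) - 1)), ?_, ?_, ?_⟩
    · intro h
      apply hk
      apply Subtype.ext
      have h1 : Matrix.toLin' ((ρ k : Matrix ι ι ℂ) - 1) = 0 := LinearMap.range_eq_bot.1 h
      have h2 : (ρ k : Matrix ι ι ℂ) - 1 = 0 := by
        apply Matrix.toLin'.injective
        rw [h1, map_zero]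
      exact sub_eq_zero.1 h2
    · rintro x _ ⟨u, rfl⟩
      refine ⟨(ρ x : Matrix ι ι ℂ) *ᵥ u, ?_⟩
      simp only [Matrix.toLin'_apply, Matrix.mulVec_mulVec]
      congr 1
      rw [sub_mul, mul_sub, hcomm, one_mul, mul_one]
    · rintro _ ⟨u, rfl⟩ hfix
      refine fix_range (ρ k) u _ ?_ hfix
      rw [Matrix.toLin'_apply, Matrix.sub_mulVec, Matrix.one_mulVec]
  obtain ⟨W, ⟨hW0, hWinv, hWfix⟩, hmin⟩ :=
    (wellFounded_lt (α := Submodule ℂ (ι → ℂ))).has_min S hne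
  have hscal : ∀ x, ∃ c : ℂ, ∀ v ∈ W, (ρ x : Matrix ι ι ℂ) *ᵥ v = c • v := by
    intro x
    have : Nontrivial W := Submodule.nontrivial_iff_ne_bot.2 hW0
    have hmaps : ∀ v ∈ W, (Matrix.toLin' (ρ x : Matrix ι ι ℂ)) v ∈ W := fun v hv => by
      rw [Matrix.toLin'_apply]; exact hWinv x v hv
    obtain ⟨c, hc⟩ := Module.End.exists_eigenvalue
      ((Matrix.toLin' (ρ x : Matrix ι ι ℂ)).restrict hmaps)
    obtain ⟨w, hw⟩ := hc.exists_hasEigenvector
    have hw1 : (ρ x : Matrix ι ι ℂ) *ᵥ (w : ι → ℂ) = c • (w : ι → ℂ) := by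
      have := congrArg Subtype.val hw.apply_eq_smul
      simpa [LinearMap.restrict_apply] using this
    have hw0 : (w : ι → ℂ) ≠ 0 := fun h => hw.2 (Subtype.ext h)
    let W' : Submodule ℂ (ι → ℂ) := W ⊓ LinearMap.ker (Matrix.toLin' (ρ x : Matrix ι ι ℂ) -
      c • LinearMap.id)
    have hmem : ∀ v, v ∈ W' ↔ v ∈ W ∧ (ρ x : Matrix ι ι ℂ) *ᵥ v = c • v := by
      intro v
      simp [W', Submodule.mem_inf, LinearMap.mem_ker, sub_eq_zero]
    have hW'S : W' ∈ S := by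
      refine ⟨?_, ?_, ?_⟩
      · intro h
        have : (w : ι → ℂ) ∈ W' := (hmem _).2 ⟨w.2, hw1⟩
        rw [h, Submodule.mem_bot] at this
        exact hw0 this
      · intro y v hv
        rw [hmem] at hv ⊢
        refine ⟨hWinv y v hv.1, ?_⟩
        rw [Matrix.mulVec_mulVec, hcomm, ← Matrix.mulVec_mulVec, hv.2, Matrix.mulVec_smul]
      · intro v hv
        exact hWfix v ((hmem v).1 hv).1
    have hle : W' ≤ W := inf_le_left
    have heq : W' = W := by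
      by_contra hne
      exact hmin W' hW'S (lt_of_le_of_ne hle hne)
    refine ⟨c, fun v hv => ?_⟩
    rw [← heq] at hv
    exact ((hmem v).1 hv).2
  obtain ⟨v, hv, hv0⟩ := Submodule.exists_mem_ne_zero_of_ne_bot hW0
  refine ⟨v, hv0, fun x => ?_, fun h => hv0 (hWfix v hv h)⟩
  obtain ⟨c, hc⟩ := hscal x
  exact ⟨c, hc v hv⟩

theorem norm_one (U : Matrix.unitaryGroup ι ℂ) (v : ι → ℂ) (hv : v ≠ 0) (c : ℂ)
    (h : (U : Matrix ι ι ℂ) *ᵥ v = c • v) : ‖c‖ = 1 := by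
  have h1 : star ((U : Matrix ι ι ℂ) *ᵥ v) ⬝ᵥ ((U : Matrix ι ι ℂ) *ᵥ v) = star v ⬝ᵥ v := by
    rw [Matrix.star_mulVec, Matrix.dotProduct_mulVec, Matrix.vecMul_vecMul, unit_mul,
      Matrix.vecMul_one]
  rw [h, star_smul, smul_dotProduct, dotProduct_smul, smul_smul, smul_eq_mul] at h1
  have h2 : star v ⬝ᵥ v ≠ 0 := fun h => hv (dotProduct_star_self_eq_zero.1 h)
  have h3 : star c * c = 1 := mul_right_cancel₀ h2 (by rw [h1, one_mul])
  have h4 : ((‖c‖ ^ 2 : ℝ) : ℂ) = 1 := by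
    rw [← h3]
    push_cast
    exact (Complex.conj_mul' c).symm
  have h5 : ‖c‖ ^ 2 = 1 := by exact_mod_cast h4
  have h6 := norm_nonneg c
  nlinarith

end lin

theorem norm_rep (θ : AddCircle (1 : ℝ)) : ∃ x : ℝ, (x : AddCircle (1:ℝ)) = θ ∧ |x| ≤ 1 / 2 ∧
    ‖θ‖ = |x| := by
  induction θ using QuotientAddGroup.induction_on with
  | H y =>
    have h1 : |y - round y| ≤ 1 / 2 := abs_sub_round y
    have h2 : ((y - round y : ℝ) : AddCircle (1:ℝ)) = (y : AddCircle (1:ℝ)) := by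
      rw [AddCircle.coe_sub]
      have : ((round y : ℝ) : AddCircle (1:ℝ)) = 0 := by
        rw [AddCircle.coe_eq_zero_iff]
        exact ⟨round y, by simp⟩
      rw [this, sub_zero]
    refine ⟨y - round y, h2, h1, ?_⟩
    have h3 := UnitAddCircle.norm_eq (x := y)
    exact h3

theorem double {θ : AddCircle (1 : ℝ)} (h : ‖θ‖ < 1 / 4) : ‖θ + θ‖ = 2 * ‖θ‖ := by
  obtain ⟨x, hx, hx1, hx2⟩ := norm_rep θ
  rw [hx2] at h
  rw [hx2, ← hx, ← AddCircle.coe_add, (AddCircle.norm_coe_eq_abs_iff 1 one_ne_zero).2 ?_]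
  · rw [← two_mul, abs_mul, abs_two]
  · rw [← two_mul, abs_mul, abs_two, abs_one]
    linarith

theorem exists_mul {θ : AddCircle (1 : ℝ)} (h : θ ≠ 0) : ∃ n : ℕ, 1 / 4 ≤ ‖(2 ^ n) • θ‖ := by
  by_contra hcon
  push Not at hcon
  have h1 : ∀ n : ℕ, ‖(2 ^ n) • θ‖ = 2 ^ n * ‖θ‖ := by
    intro n
    induction n with
    | zero => simp
    | succ n ih =>
      have e : (2 ^ (n + 1)) • θ = (2 ^ n) • θ + (2 ^ n) • θ := by
        rw [pow_succ, mul_smul, two_smul, smul_add]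
      rw [e, double (hcon n), ih]
      ring
  have h2 : 0 < ‖θ‖ := norm_pos_iff.2 h
  obtain ⟨n, hn⟩ := pow_unbounded_of_one_lt (1 / ‖θ‖) (by norm_num : (1:ℝ) < 2)
  have h3 := hcon n
  rw [h1 n] at h3
  rw [div_lt_iff₀ h2] at hn
  linarith

theorem taskT6 : Pool.Agent.H753R3.LM.TaskT6 := by
  intro C _ _ _ _ _ g hg
  have hg' : Multiplicative.ofAdd g ≠ 1 := fun h => hg (by
    have := congrArg Multiplicative.toAdd h
    simpa using this)
  have : T2Space (Multiplicative C) := inferInstanceAs (T2Space C)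
  obtain ⟨ι, _, _, ρ, hρ, hρg⟩ := Pool.LatH472.PW (Multiplicative C) (Multiplicative.ofAdd g) hg'
  obtain ⟨v, hv0, hv, hvg⟩ := common ρ _ hρg
  obtain ⟨i, hi⟩ := Function.ne_iff.1 hv0
  have hi : v i ≠ 0 := hi
  let c : C → ℂ := fun a => ((ρ (Multiplicative.ofAdd a) : Matrix ι ι ℂ) *ᵥ v) i / v i
  have hc : ∀ a, (ρ (Multiplicative.ofAdd a) : Matrix ι ι ℂ) *ᵥ v = c a • v := by
    intro a
    obtain ⟨c', hc'⟩ := hv (Multiplicative.ofAdd a)
    have : c a = c' := by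
      simp only [c]
      rw [hc', Pi.smul_apply, smul_eq_mul, mul_div_assoc, div_self hi, mul_one]
    rw [this, hc']
  have hcn : ∀ a, ‖c a‖ = 1 := fun a => norm_one _ v hv0 _ (hc a)
  have hcm : ∀ a b, c (a + b) = c a * c b := by
    intro a b
    have h1 := hc (a + b)
    rw [ofAdd_add, map_mul, Matrix.UnitaryGroup.mul_val, ← Matrix.mulVec_mulVec, hc b,
      Matrix.mulVec_smul, hc a, smul_smul] at h1
    have h2 := congrFun h1 i
    rw [Pi.smul_apply, Pi.smul_apply, smul_eq_mul, smul_eq_mul] at h2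
    have h3 := mul_right_cancel₀ hi h2
    rw [← h3, mul_comm]
  have hcc : Continuous c := by
    have h1 : Continuous fun a : C => (ρ (Multiplicative.ofAdd a) : Matrix ι ι ℂ) :=
      continuous_subtype_val.comp (hρ.comp continuous_ofAdd)
    have h2 : Continuous fun a : C => ((ρ (Multiplicative.ofAdd a) : Matrix ι ι ℂ) *ᵥ v) :=
      h1.matrix_mulVec continuous_const
    exact ((continuous_apply i).comp h2).div_const _
  let l : C → Circle := fun a => ⟨c a, mem_sphere_zero_iff_norm.2 (hcn a)⟩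
  have hlc : Continuous l := hcc.subtype_mk _
  have hlm : ∀ a b, l (a + b) = l a * l b := fun a b => Subtype.ext (hcm a b)
  let H := AddCircle.homeomorphCircle (T := (1:ℝ)) one_ne_zero
  have hH : ∀ z, AddCircle.toCircle (H.symm z) = z := by
    intro z
    rw [← AddCircle.homeomorphCircle_apply (T := (1:ℝ)) one_ne_zero]
    exact H.apply_symm_apply z
  let χ : C →+ AddCircle (1:ℝ) := AddMonoidHom.mk' (fun a => H.symm (l a)) (fun a b => by
    apply AddCircle.injective_toCircle (T := (1:ℝ)) one_ne_zero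
    rw [AddCircle.toCircle_add, hH, hH, hH, hlm])
  have hχc : Continuous χ := H.symm.continuous.comp hlc
  have hχg : χ g ≠ 0 := by
    intro h
    have h1 : AddCircle.toCircle (χ g) = l g := hH _
    rw [h, AddCircle.toCircle_zero] at h1
    have h2 : c g = 1 := (congrArg Subtype.val h1).symm
    apply hvg
    rw [hc g, h2, one_smul]
  obtain ⟨n, hn⟩ := exists_mul hχg
  refine ⟨(2 ^ n) • χ, ?_, ?_⟩
  · have : ⇑((2 ^ n) • χ) = fun a => (2 ^ n) • χ a := by
      funext a; rfl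
    rw [this]
    exact hχc.nsmul _
  · exact hn

end Pool.Agent.H428R3.LMT6
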