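import Pool.Agent.H796R3.TC.Stmts
import Pool.Agent.H671R2.PolyAuto
import Pool.Agent.NPC.Dec

set_option autoImplicit false

/-!
# `CSP(ℚ; <)` is in `P`
-/

namespace Pool.Agent.H428R3.TCC

open Pool.Agent.NPC Pool.Agent.H796R3.TC

/-- source of a fact -/
def src (e : ℕ × List ℕ) : ℕ := e.2.getD 0 0

/-- target of a fact -/
def tgt (e : ℕ × List ℕ) : ℕ := e.2.getD 1 0

/-- keep the edges whose source is the target of an edge -/
def stp (E : Inst) : Inst := E.filter (fun e => E.any (fun e2 => decide (tgt e2 = src e)))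

/-- satisfiability in `(ℚ; <)` -/
def Sat (E : Inst) : Prop := ∃ h : ℕ → ℚ, ∀ e ∈ E, h (src e) < h (tgt e)

theorem exists_min (h : ℕ → ℚ) : ∀ E : Inst, E ≠ [] →
    ∃ e ∈ E, ∀ e2 ∈ E, h (src e) ≤ h (src e2) := by
  intro E
  induction E with
  | nil => intro h; exact absurd rfl h
  | cons a E ih =>
    intro _
    by_cases hE : E = []
    · subst hE
      exact ⟨a, by simp, by simp⟩
    · obtain ⟨e, he, hm⟩ := ih hE
      by_cases hle : h (src a) ≤ h (src e)
      · refine ⟨a, by simp, fun e2 he2 => ?_⟩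
        rcases List.mem_cons.1 he2 with rfl | h2
        · exact le_rfl
        · exact hle.trans (hm e2 h2)
      · refine ⟨e, List.mem_cons_of_mem _ he, fun e2 he2 => ?_⟩
        rcases List.mem_cons.1 he2 with rfl | h2
        · exact (not_le.1 hle).le
        · exact hm e2 h2

theorem exists_lb (f : ℕ × List ℕ → ℚ) : ∀ E : Inst, ∃ M : ℚ, ∀ e ∈ E, M ≤ f e := by
  intro E
  induction E with
  | nil => exact ⟨0, by simp⟩
  | cons a E ih =>
    obtain ⟨M, hM⟩ := ih
    refine ⟨min M (f a), fun e he => ?_⟩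
    rcases List.mem_cons.1 he with rfl | h2
    · exact min_le_right _ _
    · exact (min_le_left _ _).trans (hM e h2)

theorem stp_subset (E : Inst) {e : ℕ × List ℕ} (h : e ∈ stp E) : e ∈ E :=
  (List.mem_filter.1 h).1

theorem mem_stp {E : Inst} {e : ℕ × List ℕ} :
    e ∈ stp E ↔ e ∈ E ∧ ∃ e2 ∈ E, tgt e2 = src e := by
  simp [stp, List.mem_filter]

theorem Sat.stp {E : Inst} (h : Sat E) : Sat (stp E) := by
  obtain ⟨h, hh⟩ := h
  exact ⟨h, fun e he => hh e (stp_subset E he)⟩

theorem stp_lt {E : Inst} (h : Sat E) (hE : E ≠ []) : (stp E).length < E.length := by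
  obtain ⟨h, hh⟩ := h
  obtain ⟨e, he, hm⟩ := exists_min h E hE
  refine List.length_filter_lt_length_iff_exists.2 ⟨e, he, ?_⟩
  simp only [List.any_eq_true, decide_eq_true_eq, not_exists, not_and]
  intro e2 he2 h2
  have h3 := hh e2 he2
  rw [h2] at h3
  exact absurd (hm e2 he2) (not_le.2 h3)

theorem iter_nil : ∀ (n : ℕ) (E : Inst), Sat E → E.length ≤ n → stp^[n] E = [] := by
  intro n
  induction n with
  | zero =>
    intro E _ hl
    simpa using hl
  | succ n ih =>
    intro E hE hl
    rw [Function.iterate_succ_apply]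
    refine ih _ hE.stp ?_
    by_cases h : E = []
    · subst h; simp [stp]
    · have := stp_lt hE h
      omega

theorem sat_of_stp {E : Inst} (h : Sat (stp E)) : Sat E := by
  classical
  obtain ⟨h, hh⟩ := h
  obtain ⟨M, hM⟩ := exists_lb (fun e => h (tgt e)) E
  refine ⟨fun v => if ∀ e2 ∈ E, tgt e2 ≠ v then M - 1 else h v, fun e he => ?_⟩
  have h1 : ¬ ∀ e2 ∈ E, tgt e2 ≠ tgt e := fun h => h e he rfl
  have h2 : M ≤ h (tgt e) := hM e he
  change (if ∀ e2 ∈ E, tgt e2 ≠ src e then M - 1 else h (src e)) <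
    (if ∀ e2 ∈ E, tgt e2 ≠ tgt e then M - 1 else h (tgt e))
  rw [if_neg h1]
  split_ifs with h3
  · linarith
  · push Not at h3
    exact hh e (mem_stp.2 ⟨he, h3⟩)

theorem sat_of_iter : ∀ (n : ℕ) (E : Inst), stp^[n] E = [] → Sat E := by
  intro n
  induction n with
  | zero =>
    intro E h
    simp only [Function.iterate_zero, id_eq] at h
    subst h
    exact ⟨fun _ => 0, by simp⟩
  | succ n ih =>
    intro E h
    rw [Function.iterate_succ_apply] at h
    exact sat_of_stp (ih _ h)

theorem sat_iff (E : Inst) : Sat E ↔ stp^[E.length] E = [] :=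
  ⟨fun h => iter_nil _ E h le_rfl, sat_of_iter _ E⟩

/-- the decision procedure -/
def dcs (k : ℕ) (X : Inst) : Bool :=
  X.all (fun p => decide (p.1 < k) && decide (p.2.length = 2)) && (stp^[X.length] X).isEmpty

theorem sz_filter_le {α : Type} [TEnc α] (p : α → Bool) (l : List α) :
    sz (l.filter p) ≤ sz l := by
  induction l with
  | nil => simp
  | cons a l ih =>
    rw [List.filter_cons]
    split_ifs
    · simp only [sz_list_cons]; omega
    · simp only [sz_list_cons]; omega

theorem poly_stp {α : Type} [TEnc α] {f : α → Inst} (hf : Poly f) : Poly (fun a => stp (f a)) := by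
  unfold stp src tgt
  fun_prop

theorem poly_dcs (k : ℕ) : Poly (dcs k) := by
  unfold dcs
  refine Poly.and (by fun_prop) (Poly.isEmpty ?_)
  refine Poly.iterLen (F := fun _ E => stp E) Poly.id Poly.id (poly_stp (Poly.snd Poly.id))
    Polynomial.X ?_
  intro a n _
  rw [Polynomial.eval_X]
  induction n with
  | zero => simp
  | succ n ih =>
    rw [Function.iterate_succ_apply']
    exact (sz_filter_le _ _).trans (ih (by omega))

theorem taskC : Pool.Agent.H796R3.TC.TaskC := by
  intro k e
  refine inPP_of (poly_dcs k) fun X => ?_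
  unfold Template.CSP dcs
  rw [Bool.and_eq_true, List.all_eq_true, List.isEmpty_iff, ← sat_iff]
  constructor
  · rintro ⟨h, hh⟩
    refine ⟨fun p hp => ?_, h, fun p hp => ?_⟩
    · obtain ⟨hj, hl, _⟩ := hh p hp
      simp only [Bool.and_eq_true, decide_eq_true_eq]
      exact ⟨hj, hl.symm⟩
    · obtain ⟨hj, hl, h3⟩ := hh p hp
      obtain ⟨j, l⟩ := p
      simp only at hl h3
      match l, hl, h3 with
      | [a, b], hl, h3 => simpa [src, tgt] using h3
  · rintro ⟨h1, h, hh⟩
    refine ⟨h, fun p hp => ?_⟩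
    have h2 := h1 p hp
    have h3 := hh p hp
    obtain ⟨j, l⟩ := p
    simp only [Bool.and_eq_true, decide_eq_true_eq] at h2
    obtain ⟨hj, hl⟩ := h2
    refine ⟨hj, hl.symm, ?_⟩
    match l, hl, h3 with
    | [a, b], hl, h3 => simpa [src, tgt] using h3

end Pool.Agent.H428R3.TCC
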